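import Mathlib
import Pool.Agent.R206.Bous.Crit

namespace Pool.Agent.Results.MP_38bfeb_an.RateOne

open Set
open scoped ContDiff

/-- A Schwartz class solution of `u_tt = u_xx + (u^2)_xx + u_xxxx` on `ℝ × [0,T)`. -/
structure IsSchwartzSolution (T : ℝ) (u : ℝ → ℝ → ℝ) : Prop where
  smooth : ContDiffOn ℝ ∞ (fun p : ℝ × ℝ => u p.1 p.2) (univ ×ˢ Ico 0 T)
  eqn : ∀ x : ℝ, ∀ t ∈ Ico 0 T,
    iteratedDerivWithin 2 (fun s => u x s) (Ico 0 T) t =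
      iteratedDeriv 2 (fun y => u y t) x + iteratedDeriv 2 (fun y => (u y t) ^ 2) x
        + iteratedDeriv 4 (fun y => u y t) x
  decay : ∀ N : ℕ, ∀ τ ∈ Ico 0 T, ∃ C : ℝ, ∀ x : ℝ, ∀ t ∈ Icc 0 τ,
    ∑ i ∈ Finset.range (N + 1), (1 + |x|) ^ N * |iteratedDeriv i (fun y => u y t) x| ≤ C

/-- `|u(x₀,t)| ≍ (T-t)^{-δ}` as `t → T`. -/
def Rate (T : ℝ) (u : ℝ → ℝ → ℝ) (x₀ δ : ℝ) : Prop :=
  ∃ T₀ : ℝ, 0 < T₀ ∧ T₀ < T ∧ ∃ c₁ c₂ : ℝ, 0 < c₁ ∧ 0 < c₂ ∧ ∀ t ∈ Ico T₀ T,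
    c₁ * (T - t) ^ (-δ) ≤ |u x₀ t| ∧ |u x₀ t| ≤ c₂ * (T - t) ^ (-δ)

/-- Affirmative answer to Q1, with exponent `δ = 1` attained at two prescribed points at once. -/
theorem result :
    (∀ T : ℝ, 0 < T → ∀ x₀ : ℝ, ∃ u : ℝ → ℝ → ℝ, IsSchwartzSolution T u ∧
      ∃ δ : ℝ, 1 ≤ δ ∧ Rate T u x₀ δ) ∧
    (∀ T : ℝ, 0 < T → ∀ x₁ x₂ : ℝ, x₁ ≠ x₂ → ∃ u : ℝ → ℝ → ℝ, IsSchwartzSolution T u ∧
      Rate T u x₁ 1 ∧ Rate T u x₂ 1) := by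
  have key : ∀ T : ℝ, 0 < T → ∀ x₁ x₂ : ℝ, x₁ ≠ x₂ → ∃ u : ℝ → ℝ → ℝ, IsSchwartzSolution T u ∧
      Rate T u x₁ 1 ∧ Rate T u x₂ 1 := by
    intro T hT x₁ x₂ hne
    obtain ⟨u, hu, c₁, c₂, τ, hc₁, hc₂, hτ, hτT, h⟩ := Pool.Agent.R206.Bous.critical hT hne
    have hr : ∀ x : ℝ, (x = x₁ ∨ x = x₂) → Rate T u x 1 := by
      intro x hx
      refine ⟨τ, hτ, hτT, c₁, c₂, hc₁, hc₂, fun t ht => ?_⟩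
      obtain ⟨h1, h2⟩ := h t ht.1 ht.2 x hx
      have hpos : 0 < T - t := by linarith [ht.2]
      have hu0 : 0 < u x t := lt_of_lt_of_le (by positivity) h1
      rw [abs_of_pos hu0, Real.rpow_neg_one, ← div_eq_mul_inv, ← div_eq_mul_inv]
      exact ⟨h1, h2⟩
    exact ⟨u, ⟨hu.smooth, hu.eqn, hu.decay⟩, hr x₁ (Or.inl rfl), hr x₂ (Or.inr rfl)⟩
  refine ⟨fun T hT x₀ => ?_, key⟩
  obtain ⟨u, hu, h1, _⟩ := key T hT x₀ (x₀ + 1) (by simp)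
  exact ⟨u, hu, 1, le_rfl, h1⟩

end Pool.Agent.Results.MP_38bfeb_an.RateOne
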